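import Pool.Agent.Y142.ZD.Stm

/-! Project OI (helper282), job CLD: signed permutations without stable subsets of size `d`. -/

set_option autoImplicit false
set_option linter.unusedSectionVars false
set_option linter.unusedVariables false

namespace Pool.Agent.Q190.OI.CLD

open Equiv Equiv.Perm

/-- the cycle type of a fixed point free involution -/
theorem cyc {S : Type} [Fintype S] [DecidableEq S] (κ : Perm S) (h0 : 0 < Fintype.card S)
    (h1 : ∀ x, κ x ≠ x) (h2 : ∀ x, κ (κ x) = x) :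
    ∃ n : ℕ, κ.cycleType = Multiset.replicate n 2 ∧ Fintype.card S = 2 * n := by
  have e1 : κ ^ 2 = 1 := by
    ext x
    rw [pow_two, Perm.mul_apply, h2]
    rfl
  have e2 : κ ≠ 1 := by
    intro h
    obtain ⟨x⟩ := Fintype.card_pos_iff.1 h0
    exact h1 x (by rw [h]; rfl)
  have : Fact (Nat.Prime 2) := ⟨Nat.prime_two⟩
  have e3 : orderOf κ = 2 := orderOf_eq_prime e1 e2
  obtain ⟨n, hn⟩ := Equiv.Perm.cycleType_prime_order (σ := κ) (by rw [e3]; exact Nat.prime_two)
  rw [e3] at hn
  refine ⟨n + 1, hn, ?_⟩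
  have e4 := κ.sum_cycleType
  rw [hn, Multiset.sum_replicate] at e4
  have e5 : κ.support = Finset.univ := by
    ext x
    simp only [Finset.mem_univ, iff_true]
    exact Equiv.Perm.mem_support.2 (h1 x)
  rw [e5, Finset.card_univ, smul_eq_mul] at e4
  omega

/-- fixed point free involutions are conjugate -/
theorem conj {R S : Type} [Fintype R] [DecidableEq R] [Fintype S] [DecidableEq S]
    (ι : Perm R) (κ : Perm S) (h0 : 0 < Fintype.card R) (hc : Fintype.card R = Fintype.card S)
    (h1 : ∀ x, ι x ≠ x) (h2 : ∀ x, ι (ι x) = x) (k1 : ∀ x, κ x ≠ x) (k2 : ∀ x, κ (κ x) = x) :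
    ∃ e : R ≃ S, ∀ x, e (ι x) = κ (e x) := by
  obtain ⟨e₀⟩ := Fintype.card_eq.1 hc
  obtain ⟨κ', hκ'⟩ : ∃ κ' : Perm S, κ' = e₀.permCongr ι := ⟨_, rfl⟩
  have a0 : ∀ x, κ' x = e₀ (ι (e₀.symm x)) := by
    intro x
    rw [hκ', Equiv.permCongr_apply]
  have a1 : ∀ x, κ' x ≠ x := by
    intro x h
    rw [a0] at h
    apply h1 (e₀.symm x)
    apply e₀.injective
    rw [h, e₀.apply_symm_apply]
  have a2 : ∀ x, κ' (κ' x) = x := by
    intro x
    rw [a0, a0, e₀.symm_apply_apply, h2, e₀.apply_symm_apply]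
  have h0' : 0 < Fintype.card S := by rw [← hc]; exact h0
  obtain ⟨n, hn, hn'⟩ := cyc κ h0' k1 k2
  obtain ⟨m, hm, hm'⟩ := cyc κ' h0' a1 a2
  have hmn : m = n := by omega
  subst hmn
  have hconj : IsConj κ' κ := Equiv.Perm.isConj_iff_cycleType_eq.2 (by rw [hn, hm])
  obtain ⟨c, hc'⟩ := isConj_iff.1 hconj
  refine ⟨e₀.trans c, fun x => ?_⟩
  rw [← hc']
  show c (e₀ (ι x)) = c (κ' (c⁻¹ (c (e₀ x))))
  have e5 : c⁻¹ (c (e₀ x)) = e₀ x := c.symm_apply_apply _
  rw [e5, a0, e₀.symm_apply_apply]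

/-- transport -/
theorem trans' {R S : Type} [Fintype R] [DecidableEq R] [Fintype S] [DecidableEq S]
    (ι : Perm R) (κ : Perm S) (h0 : 0 < Fintype.card R) (hc : Fintype.card R = Fintype.card S)
    (h1 : ∀ x, ι x ≠ x) (h2 : ∀ x, ι (ι x) = x) (k1 : ∀ x, κ x ≠ x) (k2 : ∀ x, κ (κ x) = x)
    (s : ℤˣ) (d : ℕ) (w : Perm S) (hw : ∀ x, w (κ x) = κ (w x)) (hs : sign w = s)
    (hT : ∀ T : Finset S, (∀ x ∈ T, w x ∈ T) → T.card ≠ d) :
    ∃ w : Perm R, (∀ x, w (ι x) = ι (w x)) ∧ sign w = s ∧
      ∀ T : Finset R, (∀ x ∈ T, w x ∈ T) → T.card ≠ d := by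
  obtain ⟨e, he⟩ := conj ι κ h0 hc h1 h2 k1 k2
  have a0 : ∀ x, e.symm.permCongr w x = e.symm (w (e x)) := by
    intro x
    rw [Equiv.permCongr_apply, Equiv.symm_symm]
  refine ⟨e.symm.permCongr w, ?_, ?_, ?_⟩
  · intro x
    rw [a0, a0, he, hw]
    apply e.injective
    rw [e.apply_symm_apply, he, e.apply_symm_apply]
  · rw [Equiv.Perm.sign_permCongr, hs]
  · intro T hT' hd
    refine hT (T.map e.toEmbedding) ?_ ?_
    · intro x hx
      rw [Finset.mem_map] at hx ⊢
      obtain ⟨y, hy, rfl⟩ := hx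
      refine ⟨_, hT' y hy, ?_⟩
      show e (e.symm.permCongr w y) = w (e y)
      rw [a0, e.apply_symm_apply]
    · rw [Finset.card_map, hd]

/-- stable subsets of a full cycle -/
theorem stab {α : Type} [Fintype α] [DecidableEq α] (f : Perm α) (hf : f.IsCycle)
    (hs : f.support = Finset.univ) (T : Finset α) (hT : ∀ x ∈ T, f x ∈ T) :
    T.card = 0 ∨ T.card = Fintype.card α := by
  rcases T.eq_empty_or_nonempty with h | ⟨x, hx⟩
  · left
    rw [h, Finset.card_empty]
  · right
    rw [← Finset.card_univ]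
    congr 1
    ext y
    simp only [Finset.mem_univ, iff_true]
    have hx' : f x ≠ x := Equiv.Perm.mem_support.1 (by rw [hs]; exact Finset.mem_univ _)
    have hy' : f y ≠ y := Equiv.Perm.mem_support.1 (by rw [hs]; exact Finset.mem_univ _)
    obtain ⟨i, hi⟩ := hf.exists_pow_eq hx' hy'
    have key : ∀ i : ℕ, (f ^ i) x ∈ T := by
      intro i
      induction i with
      | zero => exact hx
      | succ i ih =>
        rw [pow_succ', Perm.mul_apply]
        exact hT _ ih
    rw [← hi]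
    exact key i

/-- stable subsets of a sum of two full cycles -/
theorem stab2 {α β : Type} [Fintype α] [DecidableEq α] [Fintype β] [DecidableEq β] (f : Perm α)
    (g : Perm β) (hf : f.IsCycle) (hs : f.support = Finset.univ) (hg : g.IsCycle)
    (hs' : g.support = Finset.univ) (T : Finset (α ⊕ β)) (hT : ∀ x ∈ T, Equiv.Perm.sumCongr f g x ∈ T) :
    ∃ a b : ℕ, T.card = a + b ∧ (a = 0 ∨ a = Fintype.card α) ∧ (b = 0 ∨ b = Fintype.card β) := by
  refine ⟨T.toLeft.card, T.toRight.card, Finset.card_toLeft_add_card_toRight.symm, ?_, ?_⟩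
  · apply stab f hf hs
    intro x hx
    rw [Finset.mem_toLeft] at hx ⊢
    exact hT _ hx
  · apply stab g hg hs'
    intro x hx
    rw [Finset.mem_toRight] at hx ⊢
    exact hT _ hx

/-- half of the full cycle -/
theorem half {α : Type} [Fintype α] [DecidableEq α] (f : Perm α) (hf : f.IsCycle)
    (hs : f.support = Finset.univ) (m : ℕ) (hm : 0 < m) (hc : Fintype.card α = 2 * m) :
    (∀ x, (f ^ m) x ≠ x) ∧ (∀ x, (f ^ m) ((f ^ m) x) = x) ∧ ∀ x, f ((f ^ m) x) = (f ^ m) (f x) := by
  have ho : orderOf f = 2 * m := by rw [hf.orderOf, hs, Finset.card_univ, hc]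
  refine ⟨?_, ?_, ?_⟩
  · intro x hx
    have hx' : f x ≠ x := Equiv.Perm.mem_support.1 (by rw [hs]; exact Finset.mem_univ _)
    have h3 : f ^ m = 1 := hf.pow_eq_one_iff.2 ⟨x, hx', hx⟩
    have h4 := orderOf_dvd_of_pow_eq_one h3
    rw [ho] at h4
    have h5 := Nat.le_of_dvd hm h4
    omega
  · intro x
    rw [← Perm.mul_apply, ← pow_add, ← two_mul, ← ho, pow_orderOf_eq_one]
    rfl
  · intro x
    rw [← Perm.mul_apply, ← Perm.mul_apply, ← pow_succ', ← pow_succ]

theorem rot_cyc (k : ℕ) (hk : 2 ≤ k) : (finRotate k).IsCycle := by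
  obtain ⟨j, rfl⟩ : ∃ j, k = j + 2 := ⟨k - 2, by omega⟩
  exact isCycle_finRotate

theorem rot_sup (k : ℕ) (hk : 2 ≤ k) : (finRotate k).support = Finset.univ := by
  obtain ⟨j, rfl⟩ : ∃ j, k = j + 2 := ⟨k - 2, by omega⟩
  exact support_finRotate

theorem rot_sgn (k : ℕ) (hk : 1 ≤ k) : sign (finRotate k) = (-1) ^ (k - 1) := by
  obtain ⟨j, rfl⟩ : ∃ j, k = j + 1 := ⟨k - 1, by omega⟩
  rw [sign_finRotate]

/-- JOB CLD -/
theorem t : Pool.Agent.Y142.ZD.S_CLD := by
  intro R _ _ ι h1 h2 h6 s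
  have h0 : 0 < Fintype.card R := by omega
  obtain ⟨n, -, hn⟩ := cyc ι h0 h1 h2
  have hn3 : 3 ≤ n := by omega
  refine ⟨?_, ?_⟩
  · intro d hd hd'
    rcases Int.units_eq_one_or s with rfl | rfl
    · by_cases hdd : d = 2 ∨ d = 2 * n - 2
      · -- two cycles of length n
        refine trans' ι (Equiv.sumComm (Fin n) (Fin n) : Perm (Fin n ⊕ Fin n)) h0 ?_ h1 h2 ?_ ?_
          1 d (Equiv.Perm.sumCongr (finRotate n) (finRotate n)) ?_ ?_ ?_
        · rw [Fintype.card_sum, Fintype.card_fin, hn, two_mul]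
        · rintro (x | x) <;> simp
        · rintro (x | x) <;> simp
        · rintro (x | x) <;> simp
        · rw [Equiv.Perm.sign_sumCongr, rot_sgn n (by omega)]
          exact Int.units_mul_self _
        · intro T hT hTd
          obtain ⟨a, b, hab, ha, hb⟩ := stab2 _ _ (rot_cyc n (by omega)) (rot_sup n (by omega))
            (rot_cyc n (by omega)) (rot_sup n (by omega)) T hT
          rw [Fintype.card_fin] at ha hb
          omega
      · -- cycles of length 2 n - 2 and 2
        obtain ⟨c1, c2, c3⟩ := half (finRotate (2 * n - 2)) (rot_cyc _ (by omega))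
          (rot_sup _ (by omega)) (n - 1) (by omega) (by rw [Fintype.card_fin]; omega)
        obtain ⟨d1, d2, d3⟩ := half (finRotate 2) (rot_cyc _ (by omega))
          (rot_sup _ (by omega)) 1 (by omega) (by rw [Fintype.card_fin])
        refine trans' ι (Equiv.Perm.sumCongr (finRotate (2 * n - 2) ^ (n - 1)) (finRotate 2 ^ 1)) h0 ?_ h1 h2
          ?_ ?_ 1 d (Equiv.Perm.sumCongr (finRotate (2 * n - 2)) (finRotate 2)) ?_ ?_ ?_
        · rw [Fintype.card_sum, Fintype.card_fin, Fintype.card_fin, hn]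
          omega
        · rintro (x | x) h
          · exact c1 x (Sum.inl_injective h)
          · exact d1 x (Sum.inr_injective h)
        · rintro (x | x)
          · exact congrArg Sum.inl (c2 x)
          · exact congrArg Sum.inr (d2 x)
        · rintro (x | x)
          · exact congrArg Sum.inl (c3 x)
          · exact congrArg Sum.inr (d3 x)
        · rw [Equiv.Perm.sign_sumCongr, rot_sgn _ (by omega), rot_sgn 2 (by omega), ← pow_add]
          exact Even.neg_one_pow ⟨n - 1, by omega⟩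
        · intro T hT hTd
          obtain ⟨a, b, hab, ha, hb⟩ := stab2 _ _ (rot_cyc (2 * n - 2) (by omega))
            (rot_sup _ (by omega)) (rot_cyc 2 (by omega)) (rot_sup 2 (by omega)) T hT
          rw [Fintype.card_fin] at ha hb
          omega
    · -- one cycle
      obtain ⟨c1, c2, c3⟩ := half (finRotate (2 * n)) (rot_cyc _ (by omega))
        (rot_sup _ (by omega)) n (by omega) (by rw [Fintype.card_fin])
      refine trans' ι (finRotate (2 * n) ^ n) h0 ?_ h1 h2 c1 c2 (-1) d (finRotate (2 * n)) c3 ?_ ?_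
      · rw [Fintype.card_fin, hn]
      · rw [rot_sgn _ (by omega)]
        exact Odd.neg_one_pow ⟨n - 1, by omega⟩
      · intro T hT hTd
        have h3 := stab _ (rot_cyc (2 * n) (by omega)) (rot_sup _ (by omega)) T hT
        rw [Fintype.card_fin] at h3
        omega
  · obtain ⟨x⟩ := Fintype.card_pos_iff.1 h0
    rcases Int.units_eq_one_or s with rfl | rfl
    · exact ⟨1, fun _ => rfl, Equiv.Perm.sign_one, x, rfl⟩
    · obtain ⟨y, hy⟩ : ∃ y, y ∉ ({x, ι x} : Finset R) := by
        by_contra hcon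
        push Not at hcon
        have h3 : Fintype.card R ≤ ({x, ι x} : Finset R).card :=
          Finset.card_le_card (fun z _ => hcon z)
        have h4 := Finset.card_le_two (a := x) (b := ι x)
        omega
      rw [Finset.mem_insert, Finset.mem_singleton] at hy
      push Not at hy
      refine ⟨swap x (ι x), ?_, sign_swap (h1 x).symm, y, swap_apply_of_ne_of_ne hy.1 hy.2⟩
      intro z
      by_cases a1 : z = x
      · rw [a1, swap_apply_left, swap_apply_right, h2]
      by_cases a2 : z = ι x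
      · rw [a2, swap_apply_right, h2, swap_apply_left]
      rw [swap_apply_of_ne_of_ne a1 a2, swap_apply_of_ne_of_ne]
      · intro h
        exact a2 (by rw [← h, h2])
      · exact fun h => a1 (ι.injective h)

end Pool.Agent.Q190.OI.CLD
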