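import Pool.Agent.Y142.ZD.Stm

/-! Project OI (helper282), job GEND: groups of permutations commuting with a fixed point free involution. -/

set_option autoImplicit false
set_option linter.unusedSectionVars false
set_option linter.unusedVariables false

namespace Pool.Agent.Q190.OI.GEND

open Equiv Equiv.Perm

theorem apply_inv' {R : Type} (f : Perm R) (x : R) : f (f⁻¹ x) = x := f.apply_symm_apply x

theorem inv_apply' {R : Type} (f : Perm R) (x : R) : f⁻¹ (f x) = x := f.symm_apply_apply x

section

variable {R : Type} [Fintype R] [DecidableEq R] (ι : Perm R)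

/-- the transposition of two pairs -/
def ds (x y : R) : Perm R := swap x y * swap (ι x) (ι y)

/-- the double sign change -/
def d (x y : R) : Perm R := swap x (ι x) * swap y (ι y)

variable {ι}

section

variable (h1 : ∀ x, ι x ≠ x) (h2 : ∀ x, ι (ι x) = x)
include h1 h2

theorem t_x {x y : R} (hy : y ≠ x) (hy' : y ≠ ι x) : ds ι x y x = y := by
  have e1 : x ≠ ι x := (h1 x).symm
  have e2 : x ≠ ι y := by
    intro h
    exact hy' (by rw [h, h2])
  show swap x y (swap (ι x) (ι y) x) = y
  rw [swap_apply_of_ne_of_ne e1 e2, swap_apply_left]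

theorem t_y {x y : R} (hy : y ≠ x) (hy' : y ≠ ι x) : ds ι x y y = x := by
  have e2 : y ≠ ι y := (h1 y).symm
  show swap x y (swap (ι x) (ι y) y) = x
  rw [swap_apply_of_ne_of_ne hy' e2, swap_apply_right]

theorem t_ix {x y : R} (hy : y ≠ x) (hy' : y ≠ ι x) : ds ι x y (ι x) = ι y := by
  have e1 : ι y ≠ x := by
    intro h
    exact hy' (by rw [← h, h2])
  show swap x y (swap (ι x) (ι y) (ι x)) = ι y
  rw [swap_apply_left, swap_apply_of_ne_of_ne e1 (h1 y)]

theorem t_iy {x y : R} (hy : y ≠ x) (hy' : y ≠ ι x) : ds ι x y (ι y) = ι x := by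
  show swap x y (swap (ι x) (ι y) (ι y)) = ι x
  rw [swap_apply_right, swap_apply_of_ne_of_ne (h1 x) hy'.symm]

omit [Fintype R] h1 h2 in
theorem t_o {x y v : R} (a1 : v ≠ x) (a2 : v ≠ ι x) (a3 : v ≠ y) (a4 : v ≠ ι y) : ds ι x y v = v := by
  show swap x y (swap (ι x) (ι y) v) = v
  rw [swap_apply_of_ne_of_ne a2 a4, swap_apply_of_ne_of_ne a1 a3]

theorem d_x {x y : R} (hy : y ≠ x) (hy' : y ≠ ι x) : d ι x y x = ι x := by
  have e2 : x ≠ ι y := by
    intro h
    exact hy' (by rw [h, h2])
  show swap x (ι x) (swap y (ι y) x) = ι x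
  rw [swap_apply_of_ne_of_ne hy.symm e2, swap_apply_left]

theorem d_ix {x y : R} (hy : y ≠ x) (hy' : y ≠ ι x) : d ι x y (ι x) = x := by
  have e2 : ι x ≠ ι y := fun h => hy (ι.injective h).symm
  show swap x (ι x) (swap y (ι y) (ι x)) = x
  rw [swap_apply_of_ne_of_ne hy'.symm e2, swap_apply_right]

theorem d_y {x y : R} (hy : y ≠ x) (hy' : y ≠ ι x) : d ι x y y = ι y := by
  have e1 : ι y ≠ x := by
    intro h
    exact hy' (by rw [← h, h2])
  have e2 : ι y ≠ ι x := fun h => hy (ι.injective h)
  show swap x (ι x) (swap y (ι y) y) = ι y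
  rw [swap_apply_left, swap_apply_of_ne_of_ne e1 e2]

theorem d_iy {x y : R} (hy : y ≠ x) (hy' : y ≠ ι x) : d ι x y (ι y) = y := by
  show swap x (ι x) (swap y (ι y) (ι y)) = y
  rw [swap_apply_right, swap_apply_of_ne_of_ne hy hy']

omit [Fintype R] h1 h2 in
theorem d_o {x y v : R} (a1 : v ≠ x) (a2 : v ≠ ι x) (a3 : v ≠ y) (a4 : v ≠ ι y) : d ι x y v = v := by
  show swap x (ι x) (swap y (ι y) v) = v
  rw [swap_apply_of_ne_of_ne a3 a4, swap_apply_of_ne_of_ne a1 a2]

/-- extensionality -/
theorem ext4 {x y : R} {f g : Perm R} (a1 : f x = g x) (a2 : f (ι x) = g (ι x)) (a3 : f y = g y)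
    (a4 : f (ι y) = g (ι y)) (a5 : ∀ v, v ≠ x → v ≠ ι x → v ≠ y → v ≠ ι y → f v = g v) : f = g := by
  ext v
  by_cases b1 : v = x
  · rw [b1, a1]
  by_cases b2 : v = ι x
  · rw [b2, a2]
  by_cases b3 : v = y
  · rw [b3, a3]
  by_cases b4 : v = ι y
  · rw [b4, a4]
  exact a5 v b1 b2 b3 b4

theorem sign_t {x y : R} (hy : y ≠ x) : sign (ds ι x y) = 1 := by
  unfold ds
  rw [Perm.sign_mul, sign_swap hy.symm, sign_swap (fun h => hy (ι.injective h).symm)]
  rfl

theorem sign_d (x y : R) : sign (d ι x y) = 1 := by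
  unfold d
  rw [Perm.sign_mul, sign_swap (h1 x).symm, sign_swap (h1 y).symm]
  rfl

theorem d_comm (x y : R) (hy : y ≠ x) (hy' : y ≠ ι x) : d ι y x = d ι x y := by
  have e1 : x ≠ ι y := by
    intro h
    exact hy' (by rw [h, h2])
  refine ext4 h1 h2 (x := x) (y := y) ?_ ?_ ?_ ?_ ?_
  · rw [d_y h1 h2 hy.symm e1, d_x h1 h2 hy hy']
  · rw [d_iy h1 h2 hy.symm e1, d_ix h1 h2 hy hy']
  · rw [d_x h1 h2 hy.symm e1, d_y h1 h2 hy hy']
  · rw [d_ix h1 h2 hy.symm e1, d_iy h1 h2 hy hy']
  · intro v a1 a2 a3 a4
    rw [d_o a3 a4 a1 a2, d_o a1 a2 a3 a4]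

theorem d_il (x y : R) : d ι (ι x) y = d ι x y := by
  unfold d
  rw [h2, swap_comm]

theorem d_ir (x y : R) : d ι x (ι y) = d ι x y := by
  unfold d
  rw [h2, swap_comm y]

theorem t_ii {x y : R} (hy : y ≠ x) (hy' : y ≠ ι x) : ds ι (ι x) (ι y) = ds ι x y := by
  have e0 : ι y ≠ ι x := fun h => hy (ι.injective h)
  have e1 : ι y ≠ ι (ι x) := by
    rw [h2]
    intro h
    exact hy' (by rw [← h, h2])
  refine ext4 h1 h2 (x := x) (y := y) ?_ ?_ ?_ ?_ ?_
  · have := t_ix h1 h2 e0 e1
    rw [h2, h2] at this
    rw [this, t_x h1 h2 hy hy']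
  · rw [t_x h1 h2 e0 e1, t_ix h1 h2 hy hy']
  · have := t_iy h1 h2 e0 e1
    rw [h2, h2] at this
    rw [this, t_y h1 h2 hy hy']
  · rw [t_y h1 h2 e0 e1, t_iy h1 h2 hy hy']
  · intro v a1 a2 a3 a4
    rw [t_o a1 a2 a3 a4, t_o a2 (by rw [h2]; exact a1) a4 (by rw [h2]; exact a3)]

/-- the twisted transposition -/
theorem t_mul_d {x y : R} (hy : y ≠ x) (hy' : y ≠ ι x) : ds ι x (ι y) = ds ι x y * d ι x y := by
  have e0 : ι y ≠ x := by
    intro h
    exact hy' (by rw [← h, h2])
  have e1 : ι y ≠ ι x := fun h => hy (ι.injective h)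
  refine ext4 h1 h2 (x := x) (y := y) ?_ ?_ ?_ ?_ ?_
  · rw [Perm.mul_apply, t_x h1 h2 e0 e1, d_x h1 h2 hy hy', t_ix h1 h2 hy hy']
  · rw [Perm.mul_apply, t_ix h1 h2 e0 e1, d_ix h1 h2 hy hy', t_x h1 h2 hy hy', h2]
  · have := t_iy h1 h2 e0 e1
    rw [h2] at this
    rw [Perm.mul_apply, this, d_y h1 h2 hy hy', t_iy h1 h2 hy hy']
  · rw [Perm.mul_apply, t_y h1 h2 e0 e1, d_iy h1 h2 hy hy', t_y h1 h2 hy hy']
  · intro v a1 a2 a3 a4
    rw [Perm.mul_apply, d_o a1 a2 a3 a4, t_o a1 a2 a3 a4, t_o a1 a2 a4 (by rw [h2]; exact a3)]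

end

omit [Fintype R] in
theorem conj_t {h : Perm R} (hc : ∀ x, h (ι x) = ι (h x)) (x y : R) :
    h * ds ι x y * h⁻¹ = ds ι (h x) (h y) := by
  unfold ds
  rw [← hc x, ← hc y, swap_apply_apply h x y, swap_apply_apply h (ι x) (ι y)]
  group

omit [Fintype R] in
theorem conj_d {h : Perm R} (hc : ∀ x, h (ι x) = ι (h x)) (x y : R) :
    h * d ι x y * h⁻¹ = d ι (h x) (h y) := by
  unfold d
  rw [← hc x, ← hc y, swap_apply_apply h x (ι x), swap_apply_apply h y (ι y)]
  group

end

/-- JOB GEND -/
theorem t : Pool.Agent.Y142.ZD.S_GEND := by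
  classical
  intro R _ _ ι H h1 h2 hH hA hB hC hD w hw hsg
  obtain ⟨hA, hAH, z, hAz, hAt⟩ := hA
  obtain ⟨hB, hBH, hBx⟩ := hB
  -- commutation with inverses and powers
  have hpow : ∀ k : ℕ, hA ^ k ∈ H := fun k => Subgroup.pow_mem _ hAH k
  have hAk : ∀ k : ℕ, (hA ^ k) z = z ∨ (hA ^ k) z = ι z := by
    intro k
    induction k with
    | zero => exact Or.inl rfl
    | succ k ih =>
      rw [pow_succ', Perm.mul_apply]
      rcases ih with h | h
      · rw [h]
        exact Or.inr hAz
      · rw [h, hH _ hAH, hAz, h2]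
        exact Or.inl rfl
  -- transitivity
  have tr1 : ∀ x, ∃ h ∈ H, h z = x ∨ h z = ι x := by
    intro x
    by_cases a1 : x = z
    · exact ⟨1, one_mem _, Or.inl a1.symm⟩
    by_cases a2 : x = ι z
    · refine ⟨1, one_mem _, Or.inr ?_⟩
      rw [a2, h2]
      rfl
    obtain ⟨k, hk⟩ := hAt (hB z) x (hBx z).1 (hBx z).2 a1 a2
    exact ⟨hA ^ k * hB, mul_mem (hpow k) hBH, Or.inl hk⟩
  have tr2 : ∀ x y x' y' : R, y ≠ x → y ≠ ι x → y' ≠ x' → y' ≠ ι x' →
      ∃ h ∈ H, (h x = x' ∨ h x = ι x') ∧ h y = y' := by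
    intro x y x' y' b1 b2 b3 b4
    obtain ⟨g, hg, hgx⟩ := tr1 x
    obtain ⟨g', hg', hgx'⟩ := tr1 x'
    have key : ∀ (g : Perm R) (x y : R), g ∈ H → (g z = x ∨ g z = ι x) → y ≠ x → y ≠ ι x →
        g⁻¹ y ≠ z ∧ g⁻¹ y ≠ ι z := by
      intro g x y hg hgx b1 b2
      constructor
      · intro h
        have h3 : y = g z := by rw [← h, apply_inv']
        rcases hgx with h4 | h4
        · exact b1 (h3.trans h4)
        · exact b2 (h3.trans h4)
      · intro h
        have h3 : y = ι (g z) := by rw [← hH g hg, ← h, apply_inv']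
        rcases hgx with h4 | h4
        · exact b2 (by rw [h3, h4])
        · exact b1 (by rw [h3, h4, h2])
    obtain ⟨c1, c2⟩ := key g x y hg hgx b1 b2
    obtain ⟨c3, c4⟩ := key g' x' y' hg' hgx' b3 b4
    obtain ⟨k, hk⟩ := hAt _ _ c1 c2 c3 c4
    refine ⟨g' * hA ^ k * g⁻¹, mul_mem (mul_mem hg' (hpow k)) (inv_mem hg), ?_, ?_⟩
    · have e1 : g⁻¹ x = z ∨ g⁻¹ x = ι z := by
        rcases hgx with h | h
        · left
          rw [← h, inv_apply']
        · right
          have h3 : x = g (ι z) := by rw [hH g hg, h, h2]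
          rw [h3, inv_apply']
      have e2 : (hA ^ k) (g⁻¹ x) = z ∨ (hA ^ k) (g⁻¹ x) = ι z := by
        rcases e1 with h | h
        · rw [h]
          exact hAk k
        · rw [h, hH _ (hpow k)]
          rcases hAk k with h3 | h3
          · right
            rw [h3]
          · left
            rw [h3, h2]
      show g' ((hA ^ k) (g⁻¹ x)) = x' ∨ g' ((hA ^ k) (g⁻¹ x)) = ι x'
      rcases e2 with h | h
      · rw [h]
        exact hgx'
      · rw [h, hH g' hg']
        rcases hgx' with h3 | h3
        · right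
          rw [h3]
        · left
          rw [h3, h2]
    · show g' ((hA ^ k) (g⁻¹ y)) = y'
      rw [hk, apply_inv']
  -- all double sign changes
  have hd : ∀ x y : R, y ≠ x → y ≠ ι x → d ι x y ∈ H := by
    intro x y b1 b2
    obtain ⟨h, hh, x1, y1, c1, c2, c3, c4, c5⟩ := hD
    have e1 : h = d ι x1 y1 := by
      refine ext4 h1 h2 (x := x1) (y := y1) ?_ ?_ ?_ ?_ ?_
      · rw [c3, d_x h1 h2 c1 c2]
      · rw [hH h hh, c3, h2, d_ix h1 h2 c1 c2]
      · rw [c4, d_y h1 h2 c1 c2]
      · rw [hH h hh, c4, h2, d_iy h1 h2 c1 c2]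
      · intro v a1 a2 a3 a4
        rw [c5 v a1 a2 a3 a4, d_o a1 a2 a3 a4]
    obtain ⟨g, hg, hgx, hgy⟩ := tr2 x1 y1 x y c1 c2 b1 b2
    have e2 : g * h * g⁻¹ = d ι x y := by
      rw [e1, conj_d (hH g hg), hgy]
      rcases hgx with h3 | h3
      · rw [h3]
      · rw [h3, d_il h1 h2]
    rw [← e2]
    exact mul_mem (mul_mem hg hh) (inv_mem hg)
  have ht : ∀ x y : R, y ≠ x → y ≠ ι x → ds ι x y ∈ H := by
    intro x y b1 b2
    obtain ⟨h, hh, x1, y1, c1, c2, c3, c4, c5⟩ := hC
    have e1 : h = ds ι x1 y1 := by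
      refine ext4 h1 h2 (x := x1) (y := y1) ?_ ?_ ?_ ?_ ?_
      · rw [c3, t_x h1 h2 c1 c2]
      · rw [hH h hh, c3, t_ix h1 h2 c1 c2]
      · rw [c4, t_y h1 h2 c1 c2]
      · rw [hH h hh, c4, t_iy h1 h2 c1 c2]
      · intro v a1 a2 a3 a4
        rw [c5 v a1 a2 a3 a4, t_o a1 a2 a3 a4]
    obtain ⟨g, hg, hgx, hgy⟩ := tr2 x1 y1 x y c1 c2 b1 b2
    have e2 : g * h * g⁻¹ = ds ι (g x1) y := by
      rw [e1, conj_t (hH g hg), hgy]
    have e3 : ds ι (g x1) y ∈ H := by
      rw [← e2]
      exact mul_mem (mul_mem hg hh) (inv_mem hg)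
    rcases hgx with h3 | h3
    · rwa [h3] at e3
    · rw [h3] at e3
      -- ds (ι x) y = ds x (ι y) = t x y * d x y
      have e4 : ds ι (ι x) y = ds ι x y * d ι x y := by
        rw [← t_mul_d h1 h2 b1 b2]
        have e0 : ι y ≠ x := by
          intro h
          exact b2 (by rw [← h, h2])
        have e5 : ι y ≠ ι x := fun h => b1 (ι.injective h)
        have e6 := t_ii h1 h2 e0 e5
        rwa [h2] at e6
      rw [e4] at e3
      exact (Subgroup.mul_mem_cancel_right H (hd x y b1 b2)).1 e3
  -- sign changes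
  have base : ∀ (n : ℕ) (w : Perm R), (Finset.univ.filter fun x => w x ≠ x).card ≤ n →
      (∀ x, w x = x ∨ w x = ι x) → sign w = 1 → w ∈ H := by
    intro n
    induction n with
    | zero =>
      intro w hn _ _
      have h3 : w = 1 := by
        ext x
        by_contra h4
        have h5 : x ∈ Finset.univ.filter fun x => w x ≠ x := Finset.mem_filter.2 ⟨Finset.mem_univ _, h4⟩
        have h6 := Finset.card_pos.2 ⟨x, h5⟩
        omega
      rw [h3]
      exact one_mem _
    | succ n ih =>
      intro w hn hw2 hs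
      by_cases hw1 : w = 1
      · rw [hw1]
        exact one_mem _
      obtain ⟨x, hx⟩ : ∃ x, w x ≠ x := by
        by_contra hcon
        push Not at hcon
        exact hw1 (Perm.ext hcon)
      have hx' : w x = ι x := (hw2 x).resolve_left hx
      have hxi : w (ι x) = x := by
        rcases hw2 (ι x) with h3 | h3
        · exact absurd (w.injective (hx'.trans h3.symm)) (h1 x).symm
        · rw [h3, h2]
      by_cases hex : ∃ y, y ≠ x ∧ y ≠ ι x ∧ w y ≠ y
      · obtain ⟨y, b1, b2, hy⟩ := hex
        have hy' : w y = ι y := (hw2 y).resolve_left hy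
        have hyi : w (ι y) = y := by
          rcases hw2 (ι y) with h3 | h3
          · exact absurd (w.injective (hy'.trans h3.symm)) (h1 y).symm
          · rw [h3, h2]
        have f1 : (d ι x y * w) x = x := by rw [Perm.mul_apply, hx', d_ix h1 h2 b1 b2]
        have f2 : (d ι x y * w) (ι x) = ι x := by rw [Perm.mul_apply, hxi, d_x h1 h2 b1 b2]
        have f3 : (d ι x y * w) y = y := by rw [Perm.mul_apply, hy', d_iy h1 h2 b1 b2]
        have f4 : (d ι x y * w) (ι y) = ι y := by rw [Perm.mul_apply, hyi, d_y h1 h2 b1 b2]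
        have f5 : ∀ v, v ≠ x → v ≠ ι x → v ≠ y → v ≠ ι y → (d ι x y * w) v = w v := by
          intro v a1 a2 a3 a4
          rw [Perm.mul_apply]
          rcases hw2 v with h3 | h3
          · rw [h3, d_o a1 a2 a3 a4]
          · rw [h3, d_o]
            · intro h
              exact a2 (by rw [← h, h2])
            · exact fun h => a1 (ι.injective h)
            · intro h
              exact a4 (by rw [← h, h2])
            · exact fun h => a3 (ι.injective h)
        have hmem : d ι x y * w ∈ H := by
          refine ih _ ?_ ?_ ?_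
          · have hlt : (Finset.univ.filter fun v => (d ι x y * w) v ≠ v).card <
                (Finset.univ.filter fun v => w v ≠ v).card := by
              refine Finset.card_lt_card ⟨?_, ?_⟩
              · intro v hv
                rw [Finset.mem_filter] at hv ⊢
                refine ⟨Finset.mem_univ _, ?_⟩
                have g1 : v ≠ x := fun h => hv.2 (by rw [h, f1])
                have g2 : v ≠ ι x := fun h => hv.2 (by rw [h, f2])
                have g3 : v ≠ y := fun h => hv.2 (by rw [h, f3])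
                have g4 : v ≠ ι y := fun h => hv.2 (by rw [h, f4])
                rw [← f5 v g1 g2 g3 g4]
                exact hv.2
              · intro hsub
                have g1 := hsub (Finset.mem_filter.2 ⟨Finset.mem_univ x, hx⟩)
                exact (Finset.mem_filter.1 g1).2 f1
            omega
          · intro v
            by_cases a1 : v = x
            · left
              rw [a1, f1]
            by_cases a2 : v = ι x
            · left
              rw [a2, f2]
            by_cases a3 : v = y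
            · left
              rw [a3, f3]
            by_cases a4 : v = ι y
            · left
              rw [a4, f4]
            rw [f5 v a1 a2 a3 a4]
            exact hw2 v
          · rw [Perm.sign_mul, sign_d h1 h2, hs, one_mul]
        exact (Subgroup.mul_mem_cancel_left H (hd x y b1 b2)).1 hmem
      · push Not at hex
        exfalso
        have h3 : w = swap x (ι x) := by
          ext v
          by_cases a1 : v = x
          · rw [a1, hx', swap_apply_left]
          by_cases a2 : v = ι x
          · rw [a2, hxi, swap_apply_right]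
          rw [hex v a1 a2, swap_apply_of_ne_of_ne a1 a2]
        rw [h3, sign_swap (h1 x).symm] at hs
        exact absurd hs (by decide)
  -- general elements
  have gen : ∀ (n : ℕ) (w : Perm R), (Finset.univ.filter fun x => w x ≠ x ∧ w x ≠ ι x).card ≤ n →
      (∀ x, w (ι x) = ι (w x)) → sign w = 1 → w ∈ H := by
    intro n
    induction n with
    | zero =>
      intro w hn _ hs
      refine base _ w le_rfl ?_ hs
      intro x
      by_contra h3
      push Not at h3
      have h5 : x ∈ Finset.univ.filter fun x => w x ≠ x ∧ w x ≠ ι x :=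
        Finset.mem_filter.2 ⟨Finset.mem_univ _, h3⟩
      have h6 := Finset.card_pos.2 ⟨x, h5⟩
      omega
    | succ n ih =>
      intro w hn hwc hs
      by_cases hgood : ∀ x, w x = x ∨ w x = ι x
      · exact base _ w le_rfl hgood hs
      push Not at hgood
      obtain ⟨x, b1, b2⟩ := hgood
      obtain ⟨y, hy⟩ : ∃ y, y = w x := ⟨_, rfl⟩
      rw [← hy] at b1 b2
      have hyi : w (ι x) = ι y := by rw [hwc, ← hy]
      have hmem : ds ι x y * w ∈ H := by
        refine ih _ ?_ ?_ ?_
        · have hlt : (Finset.univ.filter fun v => (ds ι x y * w) v ≠ v ∧ (ds ι x y * w) v ≠ ι v).card <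
              (Finset.univ.filter fun v => w v ≠ v ∧ w v ≠ ι v).card := by
            refine Finset.card_lt_card ⟨?_, ?_⟩
            · intro v hv
              rw [Finset.mem_filter] at hv ⊢
              refine ⟨Finset.mem_univ _, ?_⟩
              obtain ⟨_, hv1, hv2⟩ := hv
              rw [Perm.mul_apply] at hv1 hv2
              by_cases a1 : w v = x
              · -- v is not x, ι x
                rw [a1]
                constructor
                · rintro rfl
                  exact b1 (hy.trans a1)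
                · intro h3
                  have h4 : v = ι x := by rw [h3, h2]
                  rw [h4, hyi] at a1
                  exact b2 (by rw [← a1, h2])
              by_cases a2 : w v = ι x
              · rw [a2]
                constructor
                · intro h3
                  rw [← h3, hyi] at a2
                  exact b1 (ι.injective a2)
                · intro h3
                  have h4 : v = x := (ι.injective h3).symm
                  rw [h4, ← hy] at a2
                  exact b2 a2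
              by_cases a3 : w v = y
              · have h4 : v = x := w.injective (a3.trans hy)
                rw [h4, ← hy, t_y h1 h2 b1 b2] at hv1
                exact absurd rfl hv1
              by_cases a4 : w v = ι y
              · have h4 : v = ι x := w.injective (a4.trans hyi.symm)
                rw [h4, hyi, t_iy h1 h2 b1 b2] at hv1
                exact absurd rfl hv1
              rw [t_o a1 a2 a3 a4] at hv1 hv2
              exact ⟨hv1, hv2⟩
            · intro hsub
              have g1 := hsub (Finset.mem_filter.2 ⟨Finset.mem_univ x, by rw [← hy]; exact ⟨b1, b2⟩⟩)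
              have g2 := (Finset.mem_filter.1 g1).2.1
              rw [Perm.mul_apply, ← hy, t_y h1 h2 b1 b2] at g2
              exact g2 rfl
          omega
        · intro v
          have hct : ∀ v, ds ι x y (ι v) = ι (ds ι x y v) := by
            intro v
            by_cases a1 : v = x
            · rw [a1, t_ix h1 h2 b1 b2, t_x h1 h2 b1 b2]
            by_cases a2 : v = ι x
            · rw [a2, h2, t_x h1 h2 b1 b2, t_ix h1 h2 b1 b2, h2]
            by_cases a3 : v = y
            · rw [a3, t_iy h1 h2 b1 b2, t_y h1 h2 b1 b2]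
            by_cases a4 : v = ι y
            · rw [a4, h2, t_y h1 h2 b1 b2, t_iy h1 h2 b1 b2, h2]
            rw [t_o a1 a2 a3 a4, t_o]
            · intro h
              exact a2 (by rw [← h, h2])
            · exact fun h => a1 (ι.injective h)
            · intro h
              exact a4 (by rw [← h, h2])
            · exact fun h => a3 (ι.injective h)
          rw [Perm.mul_apply, Perm.mul_apply, hwc, hct]
        · rw [Perm.sign_mul, sign_t h1 h2 b1, hs, one_mul]
      exact (Subgroup.mul_mem_cancel_left H (ht x y b1 b2)).1 hmem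
  exact gen _ w le_rfl hw hsg

end Pool.Agent.Q190.OI.GEND
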